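import Mathlib
import Pool.Agent.W963.GE.Dob
import Pool.Agent.Y38.CT.Eig
import Pool.Agent.Y592.CT.Fix
import Pool.Agent.Y624.CT.Eig2
import Pool.Agent.Y888.CT2.Aff
import Pool.Agent.Y220.CT.FlagCR
import Pool.Agent.Y405.CT.Lfs
import Pool.Agent.Y552.CT.Asm
import Pool.Agent.Y552.CT.Stm4

/-!
# Solvable linear groups
-/

set_option autoImplicit false

namespace Pool.Agent.Y552.CP

open Pool.Agent.Y552.CT

open Subgroup Polynomial
open scoped commutatorElement Pointwise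
open Pool.Agent.W963.GE (TT TT_finite TT_gen rho_TT vn_of_sub MM base eta_ge log_base_ge MM_ge
  mm_dob)

universe u v

variable {G : Type u} [Group G]

lemma Jb_mono {a b : ℕ} (h : a ≤ b) : Jb a ≤ Jb b := by
  unfold Jb
  rcases Nat.eq_zero_or_pos a with rfl | ha
  · rw [zero_pow (by omega)]
    exact Nat.zero_le _
  · calc a ^ (Nat.log 2 a + 3) ≤ b ^ (Nat.log 2 a + 3) := Nat.pow_le_pow_left h _
      _ ≤ b ^ (Nat.log 2 b + 3) := Nat.pow_le_pow_right (ha.trans_le h) (by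
          have := Nat.log_mono_right (b := 2) h
          omega)

/-- images of virtually nilpotent groups -/
lemma vn_of_surj {H : Type v} [Group H] {φ : G →* H} (hφ : Function.Surjective φ)
    (h : Group.IsVirtuallyNilpotent G) : Group.IsVirtuallyNilpotent H := by
  obtain ⟨N, hN, hNf⟩ := h
  obtain ⟨c, hc⟩ := (isNilpotent_iff_lowerCentralSeries N).1 hN
  refine ⟨N.map φ, (isNilpotent_iff_lowerCentralSeries _).2 ⟨c, ?_⟩, ?_⟩
  · rw [← Subgroup.map_lowerCentralSeries, hc, Subgroup.map_bot]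
  · exact ⟨ne_zero_of_dvd_ne_zero hNf.index_ne_zero (index_map_dvd N hφ)⟩

lemma vn_quot_mono {T U : Subgroup G} [T.Normal] [U.Normal] (h : T ≤ U)
    (hT : Group.IsVirtuallyNilpotent (G ⧸ T)) : Group.IsVirtuallyNilpotent (G ⧸ U) := by
  refine vn_of_surj (φ := QuotientGroup.map T U (MonoidHom.id G) h) ?_ hT
  intro x
  obtain ⟨g, rfl⟩ := QuotientGroup.mk_surjective x
  exact ⟨(g : G ⧸ T), rfl⟩

/-- the conclusion for an eigenvalue -/
def Alt (S : Set G) (D : ℕ) (P : G → ℂ → Prop) : Prop :=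
  Real.log 2 / (4 * (2 * D - 1)) ≤ H746UG.rho S ∨
    ∃ (t : G) (x : ℂ), P t x ∧ x ≠ 0 ∧ IsIntegral ℤ x ∧ IsIntegral ℤ x⁻¹ ∧ (∀ n > 0, x ^ n ≠ 1) ∧
      Real.log (base (MM x)) / (4 * (2 * D - 1)) ≤ H746UG.rho S

lemma minpoly_eq_of {x y : ℂ} (hx : IsIntegral ℤ x)
    (h : ∀ p : ℤ[X], aeval x p = 0 → aeval y p = 0) : IsIntegral ℤ y ∧ minpoly ℤ y = minpoly ℤ x := by
  have h1 := h _ (minpoly.aeval ℤ x)
  have hy : IsIntegral ℤ y := ⟨_, minpoly.monic hx, h1⟩
  refine ⟨hy, ?_⟩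
  have h2 := minpoly.isIntegrallyClosed_dvd hy h1
  exact eq_of_monic_of_associated (minpoly.monic hy) (minpoly.monic hx)
    ((minpoly.irreducible hy).associated_of_dvd (minpoly.irreducible hx) h2)

lemma alt_of {S : Set G} {D : ℕ} {P : G → ℂ → Prop} {t : G} {χ x : ℂ} (hD : 1 ≤ D) (hP : P t χ)
    (hχ : IsIntegral ℤ χ) (hx0 : x ≠ 0) (hx : ∀ n > 0, x ^ n ≠ 1)
    (hp : ∀ p : ℤ[X], aeval χ p = 0 → aeval x p = 0)
    (h : H746UG.eta x / (4 * (2 * D - 1)) ≤ H746UG.rho S) : Alt S D P := by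
  obtain ⟨hxi, hm⟩ := minpoly_eq_of hχ hp
  have hp' : ∀ p : ℤ[X], aeval x p = 0 → aeval χ p = 0 := by
    intro p h0
    have h1 := minpoly.isIntegrallyClosed_dvd hxi h0
    rw [hm] at h1
    obtain ⟨q, rfl⟩ := h1
    rw [map_mul, minpoly.aeval, zero_mul]
  have hD' : (0 : ℝ) < 4 * (2 * D - 1) := by
    have : (1 : ℝ) ≤ D := by exact_mod_cast hD
    linarith
  have hχ0 : χ ≠ 0 := by
    intro h0
    have h1 := hp X (by rw [aeval_X, h0])
    rw [aeval_X] at h1
    exact hx0 h1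
  by_cases hu : IsIntegral ℤ χ⁻¹
  · right
    refine ⟨t, χ, hP, hχ0, hχ, hu, ?_, ?_⟩
    · intro n hn h1
      have h2 := hp (X ^ n - 1) (by rw [map_sub, map_pow, aeval_X, map_one, h1, sub_self])
      rw [map_sub, map_pow, aeval_X, map_one] at h2
      exact hx n hn (sub_eq_zero.1 h2)
    · have h1 : MM χ = MM x := by
        unfold MM
        rw [hm]
      rw [h1]
      exact (div_le_div_of_nonneg_right (eta_ge x hx0 hxi) hD'.le).trans h
  · left
    have hu' : ¬ IsIntegral ℤ x⁻¹ := by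
      intro h1
      apply hu
      have h2 : ∀ p : ℤ[X], aeval x⁻¹ p = 0 → aeval χ⁻¹ p = 0 := by
        intro p h3
        let i1 : Invertible x⁻¹ := invertibleOfNonzero (inv_ne_zero hx0)
        let i2 : Invertible χ⁻¹ := invertibleOfNonzero (inv_ne_zero hχ0)
        have h4 : aeval x p.reverse = 0 := by
          have h5 := (eval₂_reverse_eq_zero_iff (algebraMap ℤ ℂ) x⁻¹ p).2 h3
          rw [invOf_eq_inv, inv_inv] at h5
          exact h5
        have h6 := hp' _ h4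
        have h7 := (eval₂_reverse_eq_zero_iff (algebraMap ℤ ℂ) χ⁻¹ p).1 (by
          rw [invOf_eq_inv, inv_inv]
          exact h6)
        exact h7
      exact (minpoly_eq_of h1 h2).1
    rw [H746UG.eta_eq_log_two x hx0 (fun h => hu' h.2)] at h
    exact h

/-- **one step**, with the alternatives simplified -/
theorem step_alt (S : Set G) (hfin : S.Finite) (hgen : closure S = ⊤) (A : Subgroup G) [A.Normal]
    {M : Submodule ℂ (Additive A →+ ℂ)} (hM : St (ac A) M) (hfd : FiniteDimensional ℂ M)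
    (hQ : Group.IsVirtuallyNilpotent (G ⧸ A)) (hT : (Tm A M).Normal) {D : ℕ} (hD1 : 1 ≤ D)
    (hE : ∀ (X : Submodule ℂ M) (hX : St (rX hM) X), X ≠ ⊥ →
      ∃ H : Subgroup G, H.index ≠ 0 ∧ H.index ≤ D ∧ ∃ v : X, v ≠ 0 ∧
        ∀ g ∈ H, ∃ c : ℂ, rX hX g v = c • v)
    {P : G → ℂ → Prop} (hP : ∀ (t : G) (χ : ℂ) (f : Additive A →+ ℂ), f ∈ M → f ≠ 0 →
      ac A t f = χ • f → P t χ) :
    Group.IsVirtuallyNilpotent (G ⧸ Tm A M) ∨ Alt S D P := by
  rcases stepG Pool.Agent.Y592.CT.fix Pool.Agent.Y888.CT2.aff S hfin hgen A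
    hM hfd hQ hT hE with h | h | ⟨f, t, χ, x, hfM, hf0, he, hint, hx0, hx, hp, h⟩
  · exact Or.inl h
  · exact Or.inr (Or.inl h)
  · exact Or.inr (alt_of hD1 (hP t χ f hfM hf0 he) hint hx0 hx hp h)

section poly

variable {A : Subgroup G} [A.Normal]
  {M : Submodule ℂ (Additive A →+ ℂ)} (hM : St (ac A) M)

/-- the index bound -/
def Jp (m : ℕ) : ℕ := min (m ^ 21) (Jb m)

lemma Jp_pos {m : ℕ} (hm : 1 ≤ m) : 1 ≤ Jp m := by
  unfold Jp Jb
  exact le_min (Nat.one_le_iff_ne_zero.2 (pow_ne_zero _ (by omega)))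
    (Nat.one_le_iff_ne_zero.2 (pow_ne_zero _ (by omega)))

/-- solvable actions, polynomial index -/
lemma hE_poly (hEIG : S_EIG3.{u, u}) (hsol : ∃ n, derivedSeries G n ≤ A)
    (hfd : FiniteDimensional ℂ M) {D m : ℕ} (hm : Module.finrank ℂ M ≤ m) (hD : Jp m ≤ D)
    (X : Submodule ℂ M) (hX : St (rX hM) X) (hX0 : X ≠ ⊥) :
    ∃ H : Subgroup G, H.index ≠ 0 ∧ H.index ≤ D ∧ ∃ v : X, v ≠ 0 ∧
        ∀ g ∈ H, ∃ c : ℂ, rX hX g v = c • v := by
  rcases min_le_iff.1 hD with hD | hD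
  · have hA : ∀ a ∈ A, rX hX a = 1 := by
      intro a ha
      ext x
      rw [rX_coe, rX_coe, ac_of_mem' A a ha]
      rfl
    have hnt : Nontrivial X := Submodule.nontrivial_iff_ne_bot.2 hX0
    obtain ⟨n, hn⟩ := hsol
    obtain ⟨H, hH0, hHi, v, hv0, hv⟩ := hEIG G X (rX hX) ⟨n, fun a ha => hA a (hn ha)⟩
    refine ⟨H, hH0, hHi.trans (le_trans ?_ hD), v, hv0, hv⟩
    exact Nat.pow_le_pow_left ((Submodule.finrank_le X).trans hm) _
  · exact hE_solv hM Pool.Agent.Y624.CT.eig2 hsol hfd ((Jb_mono hm).trans hD) X hX hX0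

end poly

/-- **solvable linear groups** -/
theorem lin (h3 : S_EIG3.{u, u}) {V : Type v} [AddCommGroup V] [Module ℂ V] [FiniteDimensional ℂ V]
    (ρ : G →* Module.End ℂ V) (hinj : ∀ g, ρ g = 1 → g = 1) (hsol : ∃ n, derivedSeries G n = ⊥)
    (S : Set G) (hfin : S.Finite) (hgen : closure S = ⊤) {D : ℕ}
    (hD : Jp (Module.finrank ℂ V ^ 2) ≤ D) (hD1 : 1 ≤ D) :
    Group.IsVirtuallyNilpotent G ∨ Alt S D (fun t x => ∃ α β : ℂ,
      Module.End.HasEigenvalue (ρ t) α ∧ Module.End.HasEigenvalue (ρ t⁻¹) β ∧ x = α * β) := by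
  obtain ⟨n, hn⟩ := hsol
  obtain ⟨F⟩ := Pool.Agent.Y220.CT.flag G V ρ
  obtain ⟨H, hHf, hH⟩ := Pool.Agent.Y220.CT.cr Pool.Agent.Y624.CT.eig2 G V ρ F ⟨n, by
    intro a ha
    rw [hn, mem_bot] at ha
    rw [ha, map_one]⟩
  by_contra hcon
  rw [not_or] at hcon
  obtain ⟨hnv, hna⟩ := hcon
  have key : ∀ k : ℕ, ∀ hk : (F.U (k + 1)).Normal, Group.IsVirtuallyNilpotent (G ⧸ F.U (k + 1)) := by
    intro k
    induction k with
    | zero =>
      intro hk
      refine ⟨H.map (QuotientGroup.mk' (F.U 1)), (isNilpotent_iff_lowerCentralSeries _).2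
        ⟨1, ?_⟩, ?_⟩
      · rw [← Subgroup.map_lowerCentralSeries, eq_bot_iff, Subgroup.lowerCentralSeries_succ,
          Subgroup.lowerCentralSeries_zero]
        have h1 : ⁅H, H⁆ ≤ F.U 1 := by
          rw [commutator_le]
          intro a ha b hb
          exact hH a ha b hb
        have h2 := map_mono (f := QuotientGroup.mk' (F.U 1)) h1
        rw [QuotientGroup.map_mk'_self] at h2
        exact h2
      · exact ⟨ne_zero_of_dvd_ne_zero hHf.index_ne_zero
          (index_map_dvd H (QuotientGroup.mk'_surjective (F.U 1)))⟩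
    | succ k ih =>
      intro hk
      obtain ⟨hN, M, hfd, hdim, hst, hker, hev⟩ := Pool.Agent.Y405.CT.lfs G V ρ F (k + 1) (by omega)
      have hT := Tm_normal (A := F.U (k + 1)) (M := M) hst
      rcases step_alt S hfin hgen (F.U (k + 1)) (M := M) hst hfd (ih hN) hT hD1
        (hE_poly hst h3 ⟨n, by rw [hn]; exact bot_le⟩ hfd hdim hD)
        (P := fun t x => ∃ α β : ℂ, Module.End.HasEigenvalue (ρ t) α ∧
          Module.End.HasEigenvalue (ρ t⁻¹) β ∧ x = α * β)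
        (fun t χ f hfM hf0 he => hev t χ f hfM hf0 he) with h | h
      · have h3 : Tm (F.U (k + 1)) M ≤ F.U (k + 1 + 1) := by
          rintro a ⟨ha, ha'⟩
          exact hker a ha ha'
        exact vn_quot_mono h3 h
      · exact absurd h hna
  have hbot : F.U (F.l + 1) = ⊥ := by
    rw [eq_bot_iff]
    intro g hg
    rw [mem_bot]
    apply hinj
    ext v
    have h1 : v ∈ F.F (0 + (F.l + 1)) := by
      have h2 : F.F F.l ≤ F.F (0 + (F.l + 1)) := F.mono (by omega)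
      rw [F.top] at h2
      exact h2 Submodule.mem_top
    have h2 := hg 0 v h1
    rw [F.zero, Submodule.mem_bot, sub_eq_zero] at h2
    exact h2
  have hk : (F.U (F.l + 1)).Normal := by rw [hbot]; infer_instance
  have h1 := key F.l hk
  apply hnv
  have h2 : Function.Surjective (QuotientGroup.quotientBot (G := G)).toMonoidHom :=
    (QuotientGroup.quotientBot (G := G)).surjective
  refine vn_of_surj h2 ?_
  exact vn_quot_mono (T := F.U (F.l + 1)) (U := ⊥) hbot.le h1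

end Pool.Agent.Y552.CP
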