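import Mathlib
import Pool.Agent.Y455.CT.NF
import Pool.Agent.Y552.CP.Lin

/-!
# Solvable linear groups: subgroups of finite index, matrices, number fields
-/

set_option autoImplicit false

namespace Pool.Agent.Y552.CP

open Pool.Agent.Y552.CT

open Subgroup Polynomial Filter Topology
open scoped commutatorElement Pointwise
open Pool.Agent.W963.GE (TT TT_finite TT_gen rho_TT vn_of_sub MM base eta_ge log_base_ge MM_ge
  mm_dob)

universe u v

/-- passing to a subgroup of index at most `q` -/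
lemma alt_sub {G : Type u} [Group G] (S : Set G) (hfin : S.Finite) (hne : S.Nonempty)
    (H : Subgroup G) {q D : ℕ} (hq : 1 ≤ q)
    {P : H → ℂ → Prop} (h : Alt (TT S H q) D P) :
    Real.log 2 / (4 * (2 * D - 1) * (2 * q - 1)) ≤ H746UG.rho S ∨
    ∃ (t : H) (x : ℂ), P t x ∧ x ≠ 0 ∧ IsIntegral ℤ x ∧ IsIntegral ℤ x⁻¹ ∧ (∀ n > 0, x ^ n ≠ 1) ∧
      Real.log (base (MM x)) / (4 * (2 * D - 1) * (2 * q - 1)) ≤ H746UG.rho S := by
  have h2 := rho_TT S hfin hne H hq
  have he : ((2 * q - 1 : ℕ) : ℝ) = 2 * q - 1 := by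
    rw [Nat.cast_sub (by omega)]; push_cast; ring
  rw [he] at h2
  have hpos : (0 : ℝ) < 2 * q - 1 := by
    have : (1 : ℝ) ≤ q := by exact_mod_cast hq
    linarith
  have fin : ∀ {c : ℝ}, c / (4 * (2 * D - 1)) ≤ H746UG.rho (TT S H q) →
      c / (4 * (2 * D - 1) * (2 * q - 1)) ≤ H746UG.rho S := by
    intro c h1
    have h3 := h1.trans h2
    rw [← div_div, div_le_iff₀ hpos, mul_comm (H746UG.rho S)]
    exact h3
  rcases h with h | ⟨t, x, hP, h0, h3, h4, h5, h6⟩
  · exact Or.inl (fin h)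
  · exact Or.inr ⟨t, x, hP, h0, h3, h4, h5, fin h6⟩

/-- the growth rate of a subset of a subgroup -/
lemma rho_val {G : Type u} [Group G] (S : Set G) :
    H746UG.rho (Subtype.val ⁻¹' S : Set (closure S)) = H746UG.rho S := by
  have h1 := H746UG.tendsto_rho (Subtype.val ⁻¹' S : Set (closure S))
  have h2 := H746UG.tendsto_rho S
  refine tendsto_nhds_unique h1 ?_
  refine h2.congr (fun n => ?_)
  have h3 : ((closure S).subtype '' (Subtype.val ⁻¹' S : Set (closure S))) = S := by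
    ext x
    constructor
    · rintro ⟨y, hy, rfl⟩
      exact hy
    · intro hx
      exact ⟨⟨x, subset_closure hx⟩, hx, rfl⟩
  have h4 : Nat.card ↥(S ^ n) = Nat.card ↥((Subtype.val ⁻¹' S : Set (closure S)) ^ n) := by
    conv_lhs => rw [← h3, ← Set.image_pow]
    exact Nat.card_image_of_injective (closure S).subtype_injective _
  rw [h4]

lemma closure_val {G : Type u} [Group G] (S : Set G) :
    closure (Subtype.val ⁻¹' S : Set (closure S)) = ⊤ :=
  closure_closure_coe_preimage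

section gl

variable {K : Type u} [Field K] (σ : K →+* ℂ) (d : ℕ)

/-- the representation of a matrix group on `ℂ ^ d` -/
noncomputable def rG : GL (Fin d) K →* Module.End ℂ (Fin d → ℂ) :=
  ((Matrix.toLinAlgEquiv' : Matrix (Fin d) (Fin d) ℂ ≃ₐ[ℂ] _) :
    Matrix (Fin d) (Fin d) ℂ →* Module.End ℂ (Fin d → ℂ)).comp
    ((RingHom.mapMatrix σ : Matrix (Fin d) (Fin d) K →+* Matrix (Fin d) (Fin d) ℂ).toMonoidHom.comp
      (Units.coeHom (Matrix (Fin d) (Fin d) K)))

lemma rG_apply (g : GL (Fin d) K) :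
    rG σ d g = Matrix.toLin' ((g : Matrix (Fin d) (Fin d) K).map σ) := rfl

lemma rG_inj (g : GL (Fin d) K) (h : rG σ d g = 1) : g = 1 := by
  rw [rG_apply] at h
  have h1 : (g : Matrix (Fin d) (Fin d) K).map σ = 1 := by
    apply Matrix.toLin'.injective
    rw [h, Matrix.toLin'_one]
    rfl
  apply Units.ext
  apply Matrix.map_injective σ.injective
  show (g : Matrix (Fin d) (Fin d) K).map σ = ((1 : GL (Fin d) K) : Matrix _ _ K).map σ
  rw [h1, Units.val_one, Matrix.map_one _ (map_zero σ) (map_one σ)]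

/-- **virtually solvable matrix groups** -/
theorem gl_main (h3 : S_EIG3.{u, u}) (S : Set (GL (Fin d) K)) (hfin : S.Finite) (H : Subgroup (closure S))
    (hsol : Group.IsSolvable H) {q : ℕ} (hH0 : H.index ≠ 0) (hHq : H.index ≤ q) :
    Group.IsVirtuallyNilpotent (closure S) ∨
    1 ≤ d ∧ (Real.log 2 / (4 * (2 * Jp (d ^ 2) - 1) * (2 * q - 1)) ≤ H746UG.rho S ∨
    ∃ g ∈ closure S, ∃ α β : ℂ,
      Module.End.HasEigenvalue (Matrix.toLin' ((g : Matrix (Fin d) (Fin d) K).map σ)) α ∧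
      Module.End.HasEigenvalue
        (Matrix.toLin' (((g⁻¹ : GL (Fin d) K) : Matrix (Fin d) (Fin d) K).map σ)) β ∧
      α * β ≠ 0 ∧ IsIntegral ℤ (α * β) ∧ IsIntegral ℤ (α * β)⁻¹ ∧ (∀ n > 0, (α * β) ^ n ≠ 1) ∧
      Real.log (base (MM (α * β))) / (4 * (2 * Jp (d ^ 2) - 1) * (2 * q - 1)) ≤
        H746UG.rho S) := by
  have hq : 1 ≤ q := by omega
  have hVNs : Subsingleton (closure S) → Group.IsVirtuallyNilpotent (closure S) := by
    intro h
    exact ⟨⊤, (isNilpotent_iff_lowerCentralSeries _).2 ⟨0, Subsingleton.elim _ _⟩, inferInstance⟩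
  rcases Nat.eq_zero_or_pos d with rfl | hd
  · left
    apply hVNs
    have : Subsingleton (GL (Fin 0) K) := ⟨fun a b => Units.ext (Subsingleton.elim _ _)⟩
    infer_instance
  rcases S.eq_empty_or_nonempty with rfl | ⟨s, hs⟩
  · left
    apply hVNs
    rw [Subgroup.closure_empty]
    infer_instance
  set S' : Set (closure S) := Subtype.val ⁻¹' S with hS'
  have hfin' : S'.Finite := hfin.preimage Subtype.val_injective.injOn
  have hgen' : closure S' = ⊤ := closure_val S
  have hne' : S'.Nonempty := ⟨⟨s, subset_closure hs⟩, hs⟩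
  have hD : 1 ≤ Jp (d ^ 2) := Jp_pos (Nat.one_le_iff_ne_zero.2 (pow_ne_zero _ hd.ne'))
  let ρ : H →* Module.End ℂ (Fin d → ℂ) := (rG σ d).comp ((closure S).subtype.comp H.subtype)
  have hfr : Jp (Module.finrank ℂ (Fin d → ℂ) ^ 2) ≤ Jp (d ^ 2) := by
    rw [Module.finrank_fin_fun]
  rcases lin h3 ρ (fun h hh => Subtype.ext (Subtype.ext (rG_inj σ d _ hh)))
    ((Group.isSolvable_def H).1 hsol) (TT S' H q) (TT_finite S' hfin' H q)
    (TT_gen S' hgen' H hH0 hHq) hfr hD with h | h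
  · exact Or.inl (vn_of_sub H hH0 h)
  · right
    refine ⟨hd, ?_⟩
    have h1 := alt_sub S' hfin' hne' H hq h
    rw [hS', rho_val] at h1
    rcases h1 with h1 | ⟨t, x, ⟨α, β, hα, hβ, rfl⟩, h0, h2, h3, h4, h5⟩
    · exact Or.inl h1
    · exact Or.inr ⟨(t : closure S), (t : closure S).2, α, β, hα, hβ, h0, h2, h3, h4, h5⟩

end gl

end Pool.Agent.Y552.CP
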