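import Mathlib
import Pool.Agent.Y809.CT.Rk
import Pool.Agent.Y552.CP.Lin2

/-!
# Solvable groups with derived factors of bounded rank
-/

set_option autoImplicit false

namespace Pool.Agent.Y552.CP

open Pool.Agent.Y552.CT

open Subgroup Polynomial Filter Topology
open scoped commutatorElement Pointwise
open Pool.Agent.W963.GE (TT TT_finite TT_gen rho_TT vn_of_sub MM base eta_ge log_base_ge MM_ge
  mm_dob)

universe u v

variable {G : Type u} [Group G]

/-- functionals on the abelianization -/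
noncomputable def ab (A : Subgroup G) :
    (Additive (Abelianization A) →+ ℂ) →ₗ[ℂ] (Additive A →+ ℂ) where
  toFun f := f.comp (MonoidHom.toAdditive (Abelianization.of : A →* Abelianization A))
  map_add' _ _ := rfl
  map_smul' _ _ := rfl

lemma ab_apply (A : Subgroup G) (f : Additive (Abelianization A) →+ ℂ) (a : A) :
    ab A f (Additive.ofMul a) = f (Additive.ofMul (Abelianization.of a)) := rfl

lemma ab_bij (A : Subgroup G) : Function.Bijective (ab A) := by
  constructor
  · intro f g h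
    ext a
    exact DFunLike.congr_fun h (Additive.ofMul a)
  · intro f
    refine ⟨AddMonoidHom.toMultiplicativeRight.symm
      (Abelianization.lift (AddMonoidHom.toMultiplicativeRight f)), ?_⟩
    ext a
    rfl

/-- conjugation on the abelianization -/
noncomputable def cj (A : Subgroup G) [A.Normal] (t : G) :
    Additive (Abelianization A) →+ Additive (Abelianization A) :=
  MonoidHom.toAdditive (Abelianization.map (MulAut.conjNormal t : A ≃* A).toMonoidHom)

lemma ac_ab (A : Subgroup G) [A.Normal] (t : G) (f : Additive (Abelianization A) →+ ℂ) :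
    ac A t (ab A f) = ab A (f.comp (cj A t⁻¹)) := by
  ext a
  rfl

/-- **one step along the derived series** -/
theorem der_step (h3 : S_EIG3.{u, u}) (S : Set G) (hfin : S.Finite) (hgen : closure S = ⊤) (i : ℕ) {m : ℕ}
    (hm : 1 ≤ m)
    (hrk : Module.rank ℤ (Additive (Abelianization (derivedSeries G i))) ≤ (m : Cardinal.{u}))
    (htor : {b : Additive (Abelianization (derivedSeries G i)) |
      ∃ n : ℕ, 0 < n ∧ n • b = 0}.Finite)
    (hQ : Group.IsVirtuallyNilpotent (G ⧸ derivedSeries G i)) {D : ℕ}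
    (hD : Jp m ≤ D ∨ (m ≤ D ∧ i ≤ 2)) :
    Group.IsVirtuallyNilpotent (G ⧸ derivedSeries G (i + 1)) ∨
      Alt S D (fun _ x => ∃ p : ℤ[X], p ≠ 0 ∧ p.natDegree ≤ m ∧ aeval x p = 0) := by
  classical
  set A := derivedSeries G i with hA
  obtain ⟨hfd, hdim, hker, hpol⟩ := Pool.Agent.Y809.CT.rk (Additive (Abelianization A)) m hrk
  have e : (Additive (Abelianization A) →+ ℂ) ≃ₗ[ℂ] (Additive A →+ ℂ) :=
    LinearEquiv.ofBijective (ab A) (ab_bij A)
  have hfd' : FiniteDimensional ℂ (Additive A →+ ℂ) := Module.Finite.equiv e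
  have hdim' : Module.finrank ℂ (Additive A →+ ℂ) ≤ m := by
    rw [← e.finrank_eq]; exact hdim
  have hst : St (ac A) (⊤ : Submodule ℂ (Additive A →+ ℂ)) := fun _ _ _ => Submodule.mem_top
  have hT : (Tm A ⊤).Normal := Tm_normal hst
  have hJ1 : 1 ≤ D := by
    rcases hD with hD | hD
    · exact (Jp_pos hm).trans hD
    · exact hm.trans hD.1
  have hE : ∀ (X : Submodule ℂ (⊤ : Submodule ℂ (Additive A →+ ℂ))) (hX : St (rX hst) X), X ≠ ⊥ →
      ∃ H : Subgroup G, H.index ≠ 0 ∧ H.index ≤ D ∧ ∃ v : X, v ≠ 0 ∧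
        ∀ g ∈ H, ∃ c : ℂ, rX hX g v = c • v := by
    rcases hD with hD | hD
    · refine hE_poly hst h3 ⟨i, le_rfl⟩ inferInstance ?_ hD
      rw [finrank_top]
      exact hdim'
    · refine hE_met hst Pool.Agent.Y38.CT.eig ?_ inferInstance ?_
      · exact derivedSeries_antitone G hD.2
      · rw [finrank_top]
        exact hdim'.trans hD.1
  have hP : ∀ (t : G) (χ : ℂ) (f : Additive A →+ ℂ), f ∈ (⊤ : Submodule ℂ (Additive A →+ ℂ)) →
      f ≠ 0 → ac A t f = χ • f → ∃ p : ℤ[X], p ≠ 0 ∧ p.natDegree ≤ m ∧ aeval χ p = 0 := by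
    intro t χ f _ hf0 he
    obtain ⟨f', rfl⟩ := (ab_bij A).2 f
    obtain ⟨p, hp0, hpd, hp⟩ := hpol (cj A t⁻¹)
    refine ⟨p, hp0, hpd, hp χ f' ?_ ?_⟩
    · intro h0
      rw [h0, map_zero] at hf0
      exact hf0 rfl
    · intro b
      rw [ac_ab, ← map_smul] at he
      have h1 := (ab_bij A).1 he
      exact DFunLike.congr_fun h1 b
  rcases step_alt S hfin hgen A hst inferInstance hQ hT hJ1 hE
    (P := fun _ x => ∃ p : ℤ[X], p ≠ 0 ∧ p.natDegree ≤ m ∧ aeval x p = 0) hP with h | h
  · left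
    set D' := derivedSeries G (i + 1) with hD'
    have hDA : D' = ⁅A, A⁆ := derivedSeries_succ G i
    have hfinT : Finite ((Tm A ⊤).map (QuotientGroup.mk' D')) := by
      -- the map from the classes
      have h1 : ∀ b : Additive (Abelianization A), ∃ g : G ⧸ D', ∀ a : A,
          Additive.ofMul (Abelianization.of a) = b → QuotientGroup.mk' D' (a : G) = g := by
        intro b
        obtain ⟨a, ha⟩ := QuotientGroup.mk_surjective (Additive.toMul b)
        refine ⟨QuotientGroup.mk' D' (a : G), fun a' ha' => ?_⟩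
        have h2 : (QuotientGroup.mk a' : A ⧸ commutator A) = QuotientGroup.mk a := by
          rw [ha, ← ha']
          rfl
        have h3 := QuotientGroup.eq.1 h2
        refine QuotientGroup.eq.2 ?_
        have h4 : ((a'⁻¹ * a : A) : G) ∈ (commutator A).map A.subtype := mem_map_of_mem _ h3
        rw [Subgroup.map_subtype_commutator] at h4
        rw [hDA]
        exact h4
      choose F hF using h1
      have h2 : (((Tm A ⊤).map (QuotientGroup.mk' D') : Subgroup (G ⧸ D')) : Set (G ⧸ D')) ⊆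
          F '' {b | ∃ n : ℕ, 0 < n ∧ n • b = 0} := by
        rintro _ ⟨a, ⟨ha, ha'⟩, rfl⟩
        refine ⟨Additive.ofMul (Abelianization.of ⟨a, ha⟩), ?_, (hF _ ⟨a, ha⟩ rfl).symm⟩
        apply hker
        intro f
        exact ha' (ab A f) Submodule.mem_top
      exact ((htor.image F).subset h2).to_subtype
    have hTn : ((Tm A ⊤).map (QuotientGroup.mk' D')).Normal :=
      hT.map _ (QuotientGroup.mk'_surjective D')
    refine vn_of_finite ((Tm A ⊤).map (QuotientGroup.mk' D')) hfinT ?_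
    let φ : G →* (G ⧸ D') ⧸ ((Tm A ⊤).map (QuotientGroup.mk' D')) :=
      (QuotientGroup.mk' _).comp (QuotientGroup.mk' D')
    have hφ : Function.Surjective φ :=
      (QuotientGroup.mk'_surjective _).comp (QuotientGroup.mk'_surjective D')
    have hk : ∀ a ∈ Tm A ⊤, φ a = 1 := by
      intro a ha
      exact (QuotientGroup.eq_one_iff _).2 (mem_map_of_mem _ ha)
    refine vn_of_surj (φ := QuotientGroup.lift (Tm A ⊤) φ hk) ?_ h
    intro y
    obtain ⟨g, rfl⟩ := hφ y
    exact ⟨(g : G ⧸ Tm A ⊤), rfl⟩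
  · exact Or.inr h

/-- **solvable groups with derived factors of bounded rank** -/
theorem der (h3 : S_EIG3.{u, u}) (S : Set G) (hfin : S.Finite) (hgen : closure S = ⊤) {m r D : ℕ} (hm : 1 ≤ m)
    (hsol : derivedSeries G r = ⊥)
    (hrk : ∀ i, 2 ≤ i → Module.rank ℤ (Additive (Abelianization (derivedSeries G i))) ≤
      (m : Cardinal.{u}))
    (htor : ∀ i, 2 ≤ i → {b : Additive (Abelianization (derivedSeries G i)) |
      ∃ n : ℕ, 0 < n ∧ n • b = 0}.Finite) (hD : Jp m ≤ D ∨ (m ≤ D ∧ r ≤ 3))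
    {P : G → ℂ → Prop} (hP : ∀ t x, (∃ p : ℤ[X], p ≠ 0 ∧ p.natDegree ≤ m ∧ aeval x p = 0) → P t x)
    (h2 : Group.IsVirtuallyNilpotent (G ⧸ derivedSeries G 2) ∨ Alt S D P) :
    Group.IsVirtuallyNilpotent G ∨ Alt S D P := by
  by_contra hcon
  rw [not_or] at hcon
  obtain ⟨hnv, hna⟩ := hcon
  have hna' : ¬ Alt S D (fun _ x => ∃ p : ℤ[X], p ≠ 0 ∧ p.natDegree ≤ m ∧ aeval x p = 0) := by
    rintro (h | ⟨t, x, h1, h2⟩)
    · exact hna (Or.inl h)
    · exact hna (Or.inr ⟨t, x, hP t x h1, h2⟩)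
  have h2' := h2.resolve_right hna
  have key : ∀ i, i + 2 ≤ r → Group.IsVirtuallyNilpotent (G ⧸ derivedSeries G (i + 2)) := by
    intro i
    induction i with
    | zero => exact fun _ => h2'
    | succ i ih =>
      intro hi
      rcases der_step h3 S hfin hgen (i + 2) hm (hrk _ (by omega)) (htor _ (by omega)) (ih (by omega))
        (hD.imp_right (fun h => ⟨h.1, by omega⟩)) with h | h
      · exact h
      · exact absurd h hna'
  apply hnv
  have h3 : Function.Surjective (QuotientGroup.quotientBot (G := G)).toMonoidHom :=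
    (QuotientGroup.quotientBot (G := G)).surjective
  refine vn_of_surj h3 ?_
  rcases le_or_gt 2 r with hr | hr
  · obtain ⟨i, rfl⟩ : ∃ i, r = i + 2 := ⟨r - 2, by omega⟩
    exact vn_quot_mono (T := derivedSeries G (i + 2)) (U := ⊥) hsol.le (key i le_rfl)
  · have h4 : derivedSeries G 2 ≤ ⊥ := (derivedSeries_antitone G hr.le).trans hsol.le
    exact vn_quot_mono (T := derivedSeries G 2) (U := ⊥) h4 h2'

/-- the metabelian quotient -/
theorem met (S : Set G) (hfin : S.Finite) (hgen : closure S = ⊤) {D : ℕ} (hD : 1 ≤ D) :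
    Group.IsVirtuallyNilpotent (G ⧸ derivedSeries G 2) ∨ Alt S D (fun _ _ => True) := by
  have hD' : (1 : ℝ) ≤ 2 * D - 1 := by
    have : (1 : ℝ) ≤ D := by exact_mod_cast hD
    linarith
  have fin : ∀ {c : ℝ}, 0 ≤ c → c / ((4 : ℕ) : ℝ) ≤ H746UG.rho S →
      c / (4 * (2 * D - 1)) ≤ H746UG.rho S := by
    intro c hc h
    refine le_trans ?_ h
    push_cast
    rw [← div_div]
    exact div_le_self (by positivity) hD'
  rcases Pool.Agent.TH53.UG.main_track hfin hgen (k := 1) le_rfl with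
    h | ⟨hMf, t, b, x, hx0, hx, hp, hn⟩ | ⟨h, _⟩
  · exact Or.inr (Or.inl (fin (Real.log_nonneg (by norm_num))
      (Pool.Agent.TH53.UG.rho_of_two S (by norm_num) h)))
  · right
    have hxi : IsIntegral ℤ x := Pool.Agent.TH53.UG.integral_of_root _ b hp
    have h1 := Pool.Agent.TH53.UG.rho_of_dig S (L := 4) (by norm_num) hx0 hn
    by_cases hu : IsIntegral ℤ x⁻¹
    · refine Or.inr ⟨t, x, trivial, hx0, hxi, hu, hx, fin ?_ ?_⟩
      · apply Real.log_nonneg
        have h2 := log_base_ge (MM_ge x hxi)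
        have h3 : 0 ≤ min 1 (Real.log (MM x)) := le_min zero_le_one (Real.log_nonneg (MM_ge x hxi))
        have h4 : 0 ≤ Real.log (base (MM x)) := by linarith
        by_contra h5
        push Not at h5
        have h6 := Real.log_neg (Pool.Agent.W963.GE.base_pos _) h5
        linarith
      · exact (div_le_div_of_nonneg_right (eta_ge x hx0 hxi) (by norm_num)).trans h1
    · left
      rw [H746UG.eta_eq_log_two x hx0 (fun h => hu h.2)] at h1
      exact fin (Real.log_nonneg (by norm_num)) h1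
  · left
    have e : derivedSeries G 2 = ⁅Pool.Agent.H785R3.GrowthA.gam G 1,
        Pool.Agent.H785R3.GrowthA.gam G 1⁆ := by
      rw [derivedSeries_succ, derivedSeries_one]
      rfl
    exact vn_quot_mono e.ge h

/-- **part 1** -/
theorem der1 (h3 : S_EIG3.{u, u}) {r m D q : ℕ} (hm : 1 ≤ m) (hD1 : 1 ≤ D) (S : Set G) (hfin : S.Finite)
    (hgen : closure S = ⊤) (H : Subgroup G) (hH0 : H.index ≠ 0) (hHq : H.index ≤ q)
    (hsol : derivedSeries H r = ⊥)
    (hrk : ∀ i, 2 ≤ i → Module.rank ℤ (Additive (Abelianization (derivedSeries H i))) ≤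
      (m : Cardinal.{u}))
    (htor : ∀ i, 2 ≤ i → {b : Additive (Abelianization (derivedSeries H i)) |
      ∃ n : ℕ, 0 < n ∧ n • b = 0}.Finite) (hD : Jp m ≤ D ∨ (m ≤ D ∧ r ≤ 3)) :
    Group.IsVirtuallyNilpotent G ∨
    Real.log 2 / (4 * (2 * D - 1) * (2 * q - 1)) ≤ H746UG.rho S ∨
    ∃ x : ℂ, x ≠ 0 ∧ IsIntegral ℤ x ∧ IsIntegral ℤ x⁻¹ ∧ (∀ n > 0, x ^ n ≠ 1) ∧
      ((Module.rank ℤ (Additive (Abelianization (derivedSeries H 1))) ≤ (m : Cardinal.{u}) ∧
        {b : Additive (Abelianization (derivedSeries H 1)) |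
          ∃ n : ℕ, 0 < n ∧ n • b = 0}.Finite) → (minpoly ℤ x).natDegree ≤ m) ∧
      Real.log (base (MM x)) / (4 * (2 * D - 1) * (2 * q - 1)) ≤ H746UG.rho S := by
  have hq : 1 ≤ q := by omega
  rcases S.eq_empty_or_nonempty with rfl | hne
  · left
    rw [Subgroup.closure_empty] at hgen
    have hsub : Subsingleton G := Subgroup.subsingleton_iff.1 (subsingleton_of_bot_eq_top hgen)
    exact ⟨⊤, (isNilpotent_iff_lowerCentralSeries _).2 ⟨0, Subsingleton.elim _ _⟩, inferInstance⟩
  set T := TT S H q with hT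
  have hTf : T.Finite := TT_finite S hfin H q
  have hTg : closure T = ⊤ := TT_gen S hgen H hH0 hHq
  set C : Prop := Module.rank ℤ (Additive (Abelianization (derivedSeries H 1))) ≤
      (m : Cardinal.{u}) ∧ {b : Additive (Abelianization (derivedSeries H 1)) |
          ∃ n : ℕ, 0 < n ∧ n • b = 0}.Finite with hC
  have hdeg : ∀ x : ℂ, IsIntegral ℤ x → (∃ p : ℤ[X], p ≠ 0 ∧ p.natDegree ≤ m ∧ aeval x p = 0) →
      (minpoly ℤ x).natDegree ≤ m := by
    rintro x hx ⟨p, hp0, hpd, hp⟩
    exact (natDegree_le_of_dvd (minpoly.isIntegrallyClosed_dvd hx hp) hp0).trans hpd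
  have key : Group.IsVirtuallyNilpotent H ∨ Alt T D (fun _ x =>
      C → ∃ p : ℤ[X], p ≠ 0 ∧ p.natDegree ≤ m ∧ aeval x p = 0) := by
    refine der h3 T hTf hTg hm hsol hrk htor hD (fun _ x h _ => h) ?_
    by_cases hc : C
    · -- the first two steps
      have h1 : Group.IsVirtuallyNilpotent (H ⧸ derivedSeries H 1) := by
        refine ⟨⊤, (isNilpotent_iff_lowerCentralSeries _).2 ⟨1, ?_⟩, inferInstance⟩
        rw [eq_bot_iff, Subgroup.lowerCentralSeries_succ, Subgroup.lowerCentralSeries_zero,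
          commutator_le]
        intro x _ y _
        obtain ⟨x, rfl⟩ := QuotientGroup.mk'_surjective (derivedSeries H 1) x
        obtain ⟨y, rfl⟩ := QuotientGroup.mk'_surjective (derivedSeries H 1) y
        rw [Subgroup.mem_bot, ← map_commutatorElement]
        refine (QuotientGroup.eq_one_iff _).2 ?_
        rw [derivedSeries_one]
        exact commutator_mem_commutator (mem_top _) (mem_top _)
      rcases der_step h3 T hTf hTg 1 hm hc.1 hc.2 h1 (hD.imp_right (fun h => ⟨h.1, by omega⟩)) with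
        h | h | ⟨t, x, h2, h⟩
      · exact Or.inl h
      · exact Or.inr (Or.inl h)
      · exact Or.inr (Or.inr ⟨t, x, fun _ => h2, h⟩)
    · rcases met T hTf hTg hD1 with h | h | ⟨t, x, _, h⟩
      · exact Or.inl h
      · exact Or.inr (Or.inl h)
      · exact Or.inr (Or.inr ⟨t, x, fun h => absurd h hc, h⟩)
  rcases key with h | h
  · exact Or.inl (vn_of_sub H hH0 h)
  · right
    rcases alt_sub S hfin hne H hq h with h | ⟨t, x, h1, h0, h2, h3, h4, h5⟩
    · exact Or.inl h
    · exact Or.inr ⟨x, h0, h2, h3, h4, fun hc => hdeg x h2 (h1 hc), h5⟩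

end Pool.Agent.Y552.CP
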