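import Mathlib
import Pool.Agent.Y759.CT.Dix
import Pool.Agent.Y314.CT3.Prim
import Pool.Agent.Y931.CT.Clif
import Pool.Agent.Y61.CT.Eig3
import Pool.Agent.Y552.CT.Ord
import Pool.Agent.Y552.CP.Unc

/-!
# The eigenvector theorem with polynomial index
-/

set_option autoImplicit false

namespace Pool.Agent.Y552.CP

open Pool.Agent.Y552.CT

universe u v

theorem ord : S_ORD.{u, v} :=
  Pool.Agent.Y552.CT.ord Pool.Agent.Y759.CT.dix Pool.Agent.Y314.CT3.prim Pool.Agent.Y931.CT.clif

theorem eig3 : S_EIG3.{u, v} := Pool.Agent.Y61.CT.eig3 ord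

end Pool.Agent.Y552.CP
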